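import Mathlib

/-!
# MP_457a5a_gt : the geodesic hull of a Gromov-Hausdorff geodesic is not unique

We exhibit a Gromov-Hausdorff geodesic which is Hausdorff realised in two compact metric spaces
such that the two unions are not isometric.
-/

namespace Pool.Agent.Results.MP_457a5a_gt.HullNotUnique

open Set Metric GromovHausdorff

/-- Gromov-Hausdorff geodesics `[0,1] → GHSpace`. -/
def IsGHGeodesic (γ : unitInterval → GHSpace) : Prop :=
  ∀ s t : unitInterval, dist (γ s) (γ t) = |(s : ℝ) - t| * dist (γ 0) (γ 1)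

/-- `φ` is a Hausdorff realization of `γ` in `X` : all `φ t` are isometric embeddings, and the
Hausdorff distance of the images of `γ s` and `γ t` is the Gromov-Hausdorff distance. -/
def IsRealization {X : Type} [MetricSpace X] (γ : unitInterval → GHSpace)
    (φ : ∀ t, (γ t).Rep → X) : Prop :=
  (∀ t, Isometry (φ t)) ∧
    ∀ s t, hausdorffDist (range (φ s)) (range (φ t)) = dist (γ s) (γ t)

/-- The union of the images of a realization. -/
def hull {X : Type} {γ : unitInterval → GHSpace} (φ : ∀ t, (γ t).Rep → X) : Set X :=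
  ⋃ t, range (φ t)

/-- The three points at time `t` (for the parameter `δ`). -/
noncomputable def pt (δ t : ℝ) (i : Fin 3) : ℝ × ℝ × ℝ :=
  match i with
  | 0 => (-(10 + t) / 2, 0, 0)
  | 1 => ((10 + t) / 2, 0, 0)
  | 2 => (0, 6, δ * t / 2)

/-- The distances between the three points. -/
noncomputable def D (t : ℝ) (i j : Fin 3) : ℝ :=
  if i = j then 0 else if i = 2 ∨ j = 2 then 6 else 10 + t

theorem dist_pt {δ t : ℝ} (hδ : δ ∈ Icc (0 : ℝ) 1) (ht : t ∈ Icc (0 : ℝ) 1) (i j : Fin 3) :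
    dist (pt δ t i) (pt δ t j) = D t i j := by
  obtain ⟨hδ0, hδ1⟩ := hδ
  obtain ⟨ht0, ht1⟩ := ht
  have h1 : 0 ≤ δ * t := mul_nonneg hδ0 ht0
  have h2 : δ * t ≤ 1 := mul_le_one₀ hδ1 ht0 ht1
  have e1 : |(-(10 + t) / 2 - (10 + t) / 2 : ℝ)| = 10 + t := by
    rw [abs_of_neg] <;> linarith
  have e2 : |((10 + t) / 2 - -(10 + t) / 2 : ℝ)| = 10 + t := by
    rw [abs_of_pos] <;> linarith
  have e3 : |(-(10 + t) / 2 - 0 : ℝ)| = (10 + t) / 2 := by
    rw [abs_of_neg] <;> linarith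
  have e4 : |(0 - -(10 + t) / 2 : ℝ)| = (10 + t) / 2 := by
    rw [abs_of_pos] <;> linarith
  have e5 : |((10 + t) / 2 - 0 : ℝ)| = (10 + t) / 2 := by
    rw [abs_of_pos] <;> linarith
  have e6 : |(0 - (10 + t) / 2 : ℝ)| = (10 + t) / 2 := by
    rw [abs_of_neg] <;> linarith
  have e7 : |(0 - 6 : ℝ)| = 6 := by norm_num
  have e8 : |(6 - 0 : ℝ)| = 6 := by norm_num
  have e9 : |(0 - δ * t / 2 : ℝ)| = δ * t / 2 := by
    rw [zero_sub, abs_neg, abs_of_nonneg]; linarith
  have e10 : |(δ * t / 2 - 0 : ℝ)| = δ * t / 2 := by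
    rw [sub_zero, abs_of_nonneg]; linarith
  have e0 : |(0 - 0 : ℝ)| = 0 := by norm_num
  have m1 : max (0 : ℝ) 0 = 0 := max_self 0
  have m2 : max (10 + t) 0 = 10 + t := max_eq_left (by linarith)
  have m3 : max (6 : ℝ) (δ * t / 2) = 6 := max_eq_left (by linarith)
  have m4 : max ((10 + t) / 2) (6 : ℝ) = 6 := max_eq_right (by linarith)
  fin_cases i <;> fin_cases j <;>
    simp only [pt, D, Prod.dist_eq, Real.dist_eq, Fin.zero_eta, Fin.mk_one, Fin.reduceFinMk,
      sub_self, abs_zero, e0, e1, e2, e3, e4, e5, e6, e7, e8, e9, e10, m1, m2, m3, m4] <;>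
    simp

theorem dist_pt_le {δ s t : ℝ} (hδ : δ ∈ Icc (0 : ℝ) 1) (i : Fin 3) :
    dist (pt δ s i) (pt δ t i) ≤ |s - t| / 2 := by
  obtain ⟨hδ0, hδ1⟩ := hδ
  have h0 : 0 ≤ |s - t| / 2 := by positivity
  have e1 : |(-(10 + s) / 2 - -(10 + t) / 2 : ℝ)| = |s - t| / 2 := by
    have : (-(10 + s) / 2 - -(10 + t) / 2 : ℝ) = -((s - t) / 2) := by ring
    rw [this, abs_neg, abs_div, abs_of_pos (show (0 : ℝ) < 2 by norm_num)]
  have e2 : |((10 + s) / 2 - (10 + t) / 2 : ℝ)| = |s - t| / 2 := by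
    have : ((10 + s) / 2 - (10 + t) / 2 : ℝ) = (s - t) / 2 := by ring
    rw [this, abs_div, abs_of_pos (show (0 : ℝ) < 2 by norm_num)]
  have e3 : |(δ * s / 2 - δ * t / 2 : ℝ)| ≤ |s - t| / 2 := by
    have : (δ * s / 2 - δ * t / 2 : ℝ) = δ * ((s - t) / 2) := by ring
    rw [this, abs_mul, abs_div, abs_of_pos (show (0 : ℝ) < 2 by norm_num), abs_of_nonneg hδ0]
    exact mul_le_of_le_one_left h0 hδ1
  fin_cases i
  · simp only [pt, Prod.dist_eq, Real.dist_eq, Fin.zero_eta, sub_self, abs_zero, e1]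
    simpa using h0
  · simp only [pt, Prod.dist_eq, Real.dist_eq, Fin.mk_one, sub_self, abs_zero, e2]
    simpa using h0
  · simp only [pt, Prod.dist_eq, Real.dist_eq, Fin.reduceFinMk, sub_self, abs_zero]
    exact max_le h0 (max_le h0 e3)

/-- The three point space at time `t`. -/
def S (t : ℝ) : Set (ℝ × ℝ × ℝ) := range (pt 0 t)

instance (t : ℝ) : CompactSpace (S t) := isCompact_iff_compactSpace.1 (finite_range _).isCompact

instance (t : ℝ) : Nonempty (S t) := (range_nonempty _).to_subtype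

/-- the geodesic -/
noncomputable def γ (t : unitInterval) : GHSpace := toGHSpace (S t)

theorem exists_equiv (t : unitInterval) : Nonempty ((γ t).Rep ≃ᵢ S t) := by
  apply toGHSpace_eq_toGHSpace_iff_isometryEquiv.1
  rw [GHSpace.toGHSpace_rep]
  rfl

/-- a chosen isometry -/
noncomputable def e (t : unitInterval) : (γ t).Rep ≃ᵢ S t := (exists_equiv t).some

/-- the index of a point -/
noncomputable def idx (t : unitInterval) (x : (γ t).Rep) : Fin 3 := (e t x).2.choose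

theorem pt_idx (t : unitInterval) (x : (γ t).Rep) : pt 0 t (idx t x) = e t x :=
  (e t x).2.choose_spec

theorem dist_rep (t : unitInterval) (x y : (γ t).Rep) : dist x y = D t (idx t x) (idx t y) := by
  rw [← dist_pt (δ := 0) (by simp) t.2, pt_idx, pt_idx]
  exact ((e t).dist_eq x y).symm

theorem exists_idx (t : unitInterval) (i : Fin 3) : ∃ x, D t (idx t x) i = 0 := by
  refine ⟨(e t).symm ⟨pt 0 t i, mem_range_self i⟩, ?_⟩
  rw [← dist_pt (δ := 0) (by simp) t.2, pt_idx, IsometryEquiv.apply_symm_apply, dist_self]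

/-- the ambient spaces -/
def G (δ : ℝ) : Set (ℝ × ℝ × ℝ) := ⋃ i : Fin 3, (fun t => pt δ t i) '' Icc 0 1

theorem G_compact (δ : ℝ) : IsCompact (G δ) := by
  apply isCompact_iUnion
  intro i
  apply isCompact_Icc.image
  fin_cases i
  · simp only [pt, Fin.zero_eta]; fun_prop
  · simp only [pt, Fin.mk_one]; fun_prop
  · simp only [pt, Fin.reduceFinMk]; fun_prop

instance (δ : ℝ) : CompactSpace (G δ) := isCompact_iff_compactSpace.1 (G_compact δ)

theorem pt_mem_G (δ : ℝ) (t : unitInterval) (i : Fin 3) : pt δ t i ∈ G δ :=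
  mem_iUnion.2 ⟨i, t, t.2, rfl⟩

/-- the realization -/
noncomputable def φ (δ : ℝ) (t : unitInterval) (x : (γ t).Rep) : G δ :=
  ⟨pt δ t (idx t x), pt_mem_G δ t _⟩

theorem φ_isometry {δ : ℝ} (hδ : δ ∈ Icc (0 : ℝ) 1) (t : unitInterval) : Isometry (φ δ t) := by
  apply Isometry.of_dist_eq
  intro x y
  rw [dist_rep, ← dist_pt hδ t.2]
  rfl

theorem range_φ {δ : ℝ} (hδ : δ ∈ Icc (0 : ℝ) 1) (t : unitInterval) :
    range (φ δ t) = range (fun i => (⟨pt δ t i, pt_mem_G δ t i⟩ : G δ)) := by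
  apply Subset.antisymm
  · rintro _ ⟨x, rfl⟩
    exact ⟨idx t x, rfl⟩
  · rintro _ ⟨i, rfl⟩
    obtain ⟨x, hx⟩ := exists_idx t i
    rw [← dist_pt hδ t.2, dist_eq_zero] at hx
    exact ⟨x, Subtype.ext hx⟩

theorem haus_le {δ : ℝ} (hδ : δ ∈ Icc (0 : ℝ) 1) (s t : unitInterval) :
    hausdorffDist (range (φ δ s)) (range (φ δ t)) ≤ |(s : ℝ) - t| / 2 := by
  rw [range_φ hδ, range_φ hδ]
  apply hausdorffDist_le_of_mem_dist (by positivity)
  · rintro _ ⟨i, rfl⟩
    exact ⟨_, ⟨i, rfl⟩, dist_pt_le hδ i⟩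
  · rintro _ ⟨i, rfl⟩
    refine ⟨_, ⟨i, rfl⟩, ?_⟩
    rw [abs_sub_comm]
    exact dist_pt_le hδ i

theorem le_dist_aux (s t : unitInterval) : ((s : ℝ) - t) / 2 ≤ dist (γ s) (γ t) := by
  rw [dist_ghDist]
  obtain ⟨Φ, Ψ, hΦ, hΨ, h⟩ := ghDist_eq_hausdorffDist (γ s).Rep (γ t).Rep
  rw [h]
  obtain ⟨x, hx⟩ := exists_idx s 0
  obtain ⟨y, hy⟩ := exists_idx s 1
  have hs := s.2
  have ht := t.2
  have hx' : idx s x = 0 := by
    by_contra hne
    unfold D at hx
    rw [if_neg hne] at hx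
    have h1 := hs.1
    split_ifs at hx <;> linarith
  have hy' : idx s y = 1 := by
    by_contra hne
    unfold D at hy
    rw [if_neg hne] at hy
    have h1 := hs.1
    split_ifs at hy <;> linarith
  have hxy : dist x y = 10 + s := by
    rw [dist_rep, hx', hy']
    simp [D]
  have hcs : IsCompact (range Φ) := isCompact_range hΦ.continuous
  have hct : IsCompact (range Ψ) := isCompact_range hΨ.continuous
  have hfin : hausdorffEDist (range Φ) (range Ψ) ≠ ⊤ :=
    hausdorffEDist_ne_top_of_nonempty_of_bounded (range_nonempty _) (range_nonempty _)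
      hcs.isBounded hct.isBounded
  obtain ⟨_, ⟨x', rfl⟩, hx1⟩ := hct.exists_infDist_eq_dist (range_nonempty _) (Φ x)
  obtain ⟨_, ⟨y', rfl⟩, hy1⟩ := hct.exists_infDist_eq_dist (range_nonempty _) (Φ y)
  have hx2 := infDist_le_hausdorffDist_of_mem (mem_range_self x) hfin
  have hy2 := infDist_le_hausdorffDist_of_mem (mem_range_self y) hfin
  rw [hx1] at hx2
  rw [hy1] at hy2
  have h1 : dist (Φ x) (Φ y) ≤ dist (Φ x) (Ψ x') + dist (Ψ x') (Ψ y') + dist (Ψ y') (Φ y) :=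
    dist_triangle4 _ _ _ _
  rw [hΦ.dist_eq, hΨ.dist_eq, hxy, dist_comm (Ψ y') (Φ y)] at h1
  have h2 : dist x' y' ≤ 10 + t := by
    rw [dist_rep]
    unfold D
    have := ht.1
    split_ifs <;> linarith
  linarith

theorem le_dist (s t : unitInterval) : |(s : ℝ) - t| / 2 ≤ dist (γ s) (γ t) := by
  rcases le_total (0 : ℝ) (s - t) with h | h
  · rw [abs_of_nonneg h]
    exact le_dist_aux s t
  · rw [abs_of_nonpos h, dist_comm]
    have := le_dist_aux t s
    linarith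

theorem dist_le_haus {δ : ℝ} (hδ : δ ∈ Icc (0 : ℝ) 1) (s t : unitInterval) :
    dist (γ s) (γ t) ≤ hausdorffDist (range (φ δ s)) (range (φ δ t)) := by
  rw [dist_ghDist]
  exact ghDist_le_hausdorffDist (φ_isometry hδ s) (φ_isometry hδ t)

theorem dist_γ (s t : unitInterval) : dist (γ s) (γ t) = |(s : ℝ) - t| / 2 :=
  le_antisymm ((dist_le_haus (δ := 0) (by simp) s t).trans (haus_le (by simp) s t)) (le_dist s t)

theorem φ_realization {δ : ℝ} (hδ : δ ∈ Icc (0 : ℝ) 1) : IsRealization γ (φ δ) :=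
  ⟨φ_isometry hδ, fun s t => le_antisymm ((haus_le hδ s t).trans (le_dist s t))
    (dist_le_haus hδ s t)⟩

theorem hull_φ {δ : ℝ} (hδ : δ ∈ Icc (0 : ℝ) 1) : hull (φ δ) = univ := by
  rw [eq_univ_iff_forall]
  rintro ⟨x, hx⟩
  obtain ⟨i, t, ht, rfl⟩ := mem_iUnion.1 hx
  refine mem_iUnion.2 ⟨⟨t, ht⟩, ?_⟩
  rw [range_φ hδ]
  exact ⟨i, rfl⟩

/-- There is a point at distance at least `1` from all other points. -/
def HasIso (X : Type) [MetricSpace X] : Prop := ∃ x : X, ∀ y, dist x y < 1 → y = x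

theorem HasIso.of_equiv {X Y : Type} [MetricSpace X] [MetricSpace Y] (f : X ≃ᵢ Y)
    (h : HasIso X) : HasIso Y := by
  obtain ⟨x, hx⟩ := h
  refine ⟨f x, fun y hy => ?_⟩
  have h1 : dist x (f.symm y) < 1 := by
    rw [← f.dist_eq, f.apply_symm_apply]
    exact hy
  rw [← hx _ h1, f.apply_symm_apply]

theorem G0_hasIso : HasIso (G 0) := by
  refine ⟨⟨pt 0 (0 : unitInterval) 2, pt_mem_G 0 0 2⟩, ?_⟩
  rintro ⟨y, hy⟩ h
  obtain ⟨i, t, ht, rfl⟩ := mem_iUnion.1 hy
  have h' : dist (pt 0 0 2) (pt 0 t i) < 1 := h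
  have key : i = 2 := by
    by_contra hne
    have h2 : (6 : ℝ) ≤ dist (pt 0 0 2) (pt 0 t i) := by
      fin_cases i
      · simp only [pt, Prod.dist_eq, Real.dist_eq, Fin.zero_eta]
        refine le_max_of_le_right (le_max_of_le_left ?_)
        norm_num
      · simp only [pt, Prod.dist_eq, Real.dist_eq, Fin.mk_one]
        refine le_max_of_le_right (le_max_of_le_left ?_)
        norm_num
      · exact absurd rfl hne
    linarith
  subst key
  apply Subtype.ext
  simp [pt]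

theorem G1_not_hasIso : ¬ HasIso (G 1) := by
  rintro ⟨⟨x, hx⟩, h⟩
  obtain ⟨i, t, ht, rfl⟩ := mem_iUnion.1 hx
  -- another time
  obtain ⟨s, hs, hst⟩ : ∃ s ∈ Icc (0 : ℝ) 1, s ≠ t := by
    by_cases h0 : t = 0
    · exact ⟨1, by simp, by rw [h0]; norm_num⟩
    · exact ⟨0, by simp, fun h => h0 h.symm⟩
  have h1 := h ⟨pt 1 s i, mem_iUnion.2 ⟨i, s, hs, rfl⟩⟩ (by
    refine lt_of_le_of_lt (dist_pt_le (δ := 1) (by simp) i) ?_
    have h1 : |t - s| ≤ 1 := by
      rw [abs_le]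
      exact ⟨by linarith [ht.1, hs.2], by linarith [ht.2, hs.1]⟩
    linarith)
  have h2 : pt 1 s i = pt 1 t i := congrArg Subtype.val h1
  apply hst
  fin_cases i
  · simp only [pt, Fin.zero_eta, Prod.mk.injEq] at h2
    linarith [h2.1]
  · simp only [pt, Fin.mk_one, Prod.mk.injEq] at h2
    linarith [h2.1]
  · simp only [pt, Fin.reduceFinMk, Prod.mk.injEq] at h2
    linarith [h2.2.2]

/-- The set `univ` as a subtype is isometric to the space. -/
def univEquiv (X : Type) [MetricSpace X] : (univ : Set X) ≃ᵢ X where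
  toFun x := x.1
  invFun x := ⟨x, mem_univ x⟩
  left_inv x := rfl
  right_inv x := rfl
  isometry_toFun := isometry_subtype_coe

/-- There are a (nonconstant) Gromov-Hausdorff geodesic `γ`, non-isometric nonempty compact
metric spaces `X`, `Y`, and Hausdorff realizations `φ`, `ψ` of `γ` in `X` and `Y` whose unions
are not isometric. -/
theorem result : ∃ (γ : unitInterval → GHSpace) (X : Type) (_ : MetricSpace X) (Y : Type)
    (_ : MetricSpace Y) (φ : ∀ t, (γ t).Rep → X) (ψ : ∀ t, (γ t).Rep → Y),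
    CompactSpace X ∧ Nonempty X ∧ CompactSpace Y ∧ Nonempty Y ∧ ¬ Nonempty (X ≃ᵢ Y) ∧
    IsGHGeodesic γ ∧ 0 < dist (γ 0) (γ 1) ∧ IsRealization γ φ ∧ IsRealization γ ψ ∧
    ¬ Nonempty (hull φ ≃ᵢ hull ψ) := by
  have hne : ¬ Nonempty (G 0 ≃ᵢ G 1) := by
    rintro ⟨f⟩
    exact G1_not_hasIso (G0_hasIso.of_equiv f)
  refine ⟨γ, G 0, inferInstance, G 1, inferInstance, φ 0, φ 1, inferInstance,
    ⟨⟨_, pt_mem_G 0 0 0⟩⟩, inferInstance, ⟨⟨_, pt_mem_G 1 0 0⟩⟩, hne, ?_, ?_,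
    φ_realization (by simp), φ_realization (by simp), ?_⟩
  · intro s t
    rw [dist_γ, dist_γ]
    norm_num
    ring
  · rw [dist_γ]
    norm_num
  · rw [hull_φ (by simp), hull_φ (by simp)]
    rintro ⟨f⟩
    exact hne ⟨((univEquiv _).symm.trans f).trans (univEquiv _)⟩

end Pool.Agent.Results.MP_457a5a_gt.HullNotUnique
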